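import Pool.Agent.Y242.CS.Stm

/-! Local obstruction to the convexity of the complement of the image. -/

set_option autoImplicit false

open Set Filter Topology Complex Metric

noncomputable section

namespace Y125.CS

open Y242.CS

/-- Taylor expansion of order two with a continuous remainder -/
theorem taylor2 {H : ℂ → ℂ} {c : ℂ} (hH : AnalyticAt ℂ H c) :
    ∃ K : ℂ → ℂ, ContinuousAt K c ∧ K c = deriv (deriv H) c / 2 ∧
      ∀ z, H z = H c + deriv H c * (z - c) + (z - c) ^ 2 * K z := by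
  have hp := hH.hasFPowerSeriesAt
  have hp1 := hp.has_fpower_series_dslope_fslope
  have hp2 := hp1.has_fpower_series_dslope_fslope
  refine ⟨dslope (dslope H c) c, hp2.continuousAt, ?_, fun z => ?_⟩
  · have h1 : dslope (dslope H c) c c = deriv (dslope H c) c := dslope_same _ _
    have h2 := hp1.deriv
    have h3 : (FormalMultilinearSeries.ofScalars ℂ fun n ↦ iteratedDeriv n H c / (n.factorial : ℂ)).fslope.coeff 1 =
        iteratedDeriv 2 H c / 2 := by
      rw [FormalMultilinearSeries.coeff_fslope]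
      simp [FormalMultilinearSeries.coeff_ofScalars]
    rw [h1, h2]
    refine h3.trans ?_
    rw [iteratedDeriv_succ, iteratedDeriv_one]
  · have h1 := sub_smul_dslope H c z
    have h2 := sub_smul_dslope (dslope H c) c z
    rw [dslope_same] at h2
    simp only [smul_eq_mul] at h1 h2
    linear_combination -h1 - (z - c) * h2

/-- the slope of `s ↦ exp (i ε s)` at `0` -/
theorem slope_exp (ε : ℂ) : Tendsto (fun s : ℝ => (exp (ε * s) - 1) / s) (𝓝[≠] 0) (𝓝 ε) := by
  have h1 : HasDerivAt (fun s : ℝ => exp (ε * (s : ℂ))) ε 0 := by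
    have h2 : HasDerivAt (fun z : ℂ => exp (ε * z)) ε ((0 : ℝ) : ℂ) := by
      have h3 := ((hasDerivAt_id ((0 : ℝ) : ℂ)).const_mul ε).cexp
      simpa using h3
    exact h2.comp_ofReal
  rw [hasDerivAt_iff_tendsto_slope] at h1
  refine h1.congr' ?_
  filter_upwards [self_mem_nhdsWithin] with s hs
  simp only [slope, vsub_eq_sub, sub_zero, ofReal_zero, mul_zero, exp_zero, Complex.real_smul,
    ofReal_inv]
  rw [div_eq_inv_mul]

theorem t : Y242.CS.S_2 := by
  intro H hH hinj ha hP hconv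
  have h1 : (1 : ℂ) ∈ ExtC := by simp [ExtC]
  set a := deriv H 1 with hadef
  set b := deriv (deriv H) 1 with hbdef
  obtain ⟨K, hK, hK1, hKe⟩ := taylor2 (hH 1 h1)
  have hs := (hH 1 h1).hasStrictDerivAt
  set g : ℂ → ℂ := hs.localInverse H (deriv H 1) 1 ha with hg
  have hg1 : g (H 1) = 1 := by
    have h3 := hs.eventually_left_inverse ha
    exact h3.self_of_nhds
  have hgd : HasDerivAt g a⁻¹ (H 1) := (hs.to_localInverse ha).hasDerivAt
  -- the exponentials
  have eI : ∀ ε : ℂ, Tendsto (fun s : ℝ => exp (ε * s)) (𝓝[≠] 0) (𝓝 1) := by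
    intro ε
    have h3 : Continuous (fun s : ℝ => exp (ε * s)) := by fun_prop
    have h4 := h3.tendsto 0
    simp only [ofReal_zero, mul_zero, exp_zero] at h4
    exact h4.mono_left nhdsWithin_le_nhds
  set u : ℝ → ℂ := fun s => (exp (I * s) - 1) / s with hu
  set v : ℝ → ℂ := fun s => (exp (-I * s) - 1) / s with hv
  have hu1 : Tendsto u (𝓝[≠] 0) (𝓝 I) := slope_exp I
  have hv1 : Tendsto v (𝓝[≠] 0) (𝓝 (-I)) := slope_exp (-I)
  set m : ℝ → ℂ := fun s => (H (exp (I * s)) + H (exp (-I * s))) / 2 with hm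
  set T : ℝ → ℂ := fun s =>
    (-(a * (u s * v s)) + u s ^ 2 * K (exp (I * s)) + v s ^ 2 * K (exp (-I * s))) / 2 with hT
  have hK' : Tendsto K (𝓝 1) (𝓝 (b / 2)) := by
    rw [hbdef, ← hK1]; exact hK
  have hTlim : Tendsto T (𝓝[≠] 0) (𝓝 (-(a + b) / 2)) := by
    have h3 : Tendsto T (𝓝[≠] 0)
        (𝓝 ((-(a * (I * -I)) + I ^ 2 * (b / 2) + (-I) ^ 2 * (b / 2)) / 2)) := by
      refine Tendsto.div_const ?_ 2
      refine Tendsto.add (Tendsto.add ?_ ?_) ?_
      · exact ((hu1.mul hv1).const_mul a).neg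
      · exact (hu1.pow 2).mul (hK'.comp (eI I))
      · exact (hv1.pow 2).mul (hK'.comp (eI (-I)))
    have h4 : (-(a * (I * -I)) + I ^ 2 * (b / 2) + (-I) ^ 2 * (b / 2)) / 2 = -(a + b) / 2 := by
      linear_combination ((a + b) / 2) * I_sq
    rwa [h4] at h3
  have hmT : ∀ s : ℝ, s ≠ 0 → m s - H 1 = (s : ℂ) ^ 2 * T s := by
    intro s hs0
    have hs0' : (s : ℂ) ≠ 0 := ofReal_ne_zero.2 hs0
    have e1 : exp (I * s) - 1 = s * u s := by
      rw [hu]; field_simp
    have e2 : exp (-I * s) - 1 = s * v s := by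
      rw [hv]; field_simp
    have e3 : exp (I * s) * exp (-I * s) = 1 := by
      rw [← exp_add]; simp
    have e4 : (s : ℂ) * u s + s * v s = -(s * u s * (s * v s)) := by
      rw [← e1, ← e2]
      linear_combination e3
    rw [hm, hT]
    simp only
    rw [hKe (exp (I * s)), hKe (exp (-I * s)), e1, e2]
    linear_combination (a / 2) * e4
  have hmlim : Tendsto m (𝓝[≠] 0) (𝓝 (H 1)) := by
    have hc : ContinuousAt H 1 := (hH 1 h1).continuousAt
    have h3 : Tendsto m (𝓝[≠] 0) (𝓝 ((H 1 + H 1) / 2)) :=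
      ((hc.tendsto.comp (eI I)).add (hc.tendsto.comp (eI (-I)))).div_const 2
    have h4 : (H 1 + H 1) / 2 = H 1 := by ring
    rwa [h4] at h3
  have hG : Tendsto (fun s => dslope g (H 1) (m s)) (𝓝[≠] 0) (𝓝 a⁻¹) := by
    have h3 : ContinuousAt (dslope g (H 1)) (H 1) :=
      continuousAt_dslope_same.2 hgd.differentiableAt
    have h4 := h3.tendsto
    rw [dslope_same, hgd.deriv] at h4
    exact h4.comp hmlim
  have hlim : Tendsto (fun s => (T s * dslope g (H 1) (m s)).re) (𝓝[≠] 0)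
      (𝓝 (-(1 + b / a).re / 2)) := by
    have h3 := (continuous_re.tendsto _).comp (hTlim.mul hG)
    have h4 : (-(a + b) / 2 * a⁻¹).re = -(1 + b / a).re / 2 := by
      have h5 : -(a + b) / 2 * a⁻¹ = ((-1 / 2 : ℝ) : ℂ) * (1 + b / a) := by
        push_cast
        field_simp
      rw [h5, re_ofReal_mul]
      ring
    rwa [h4] at h3
  have hpos : ∀ᶠ s in 𝓝[≠] (0 : ℝ), 0 < (T s * dslope g (H 1) (m s)).re :=
    hlim.eventually (lt_mem_nhds (by linarith))
  have hright : ∀ᶠ s in 𝓝[≠] (0 : ℝ), H (g (m s)) = m s :=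
    hmlim.eventually (hs.eventually_right_inverse ha)
  obtain ⟨s, hs1, hs2, hs3⟩ := (hpos.and (hright.and self_mem_nhdsWithin)).exists
  have hs0 : s ≠ 0 := hs3
  have hg2 : g (m s) = 1 + (s : ℂ) ^ 2 * (T s * dslope g (H 1) (m s)) := by
    have h3 := sub_smul_dslope g (H 1) (m s)
    rw [hg1, smul_eq_mul, hmT s hs0] at h3
    linear_combination -h3
  have hre : 1 < (g (m s)).re := by
    rw [hg2]
    have h3 : ((s : ℂ) ^ 2 * (T s * dslope g (H 1) (m s))).re =
        s ^ 2 * (T s * dslope g (H 1) (m s)).re := by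
      rw [← ofReal_pow, re_ofReal_mul]
    rw [add_re, h3, one_re]
    have h4 : 0 < s ^ 2 := by positivity
    nlinarith
  have hExt : g (m s) ∈ Y242.CS.Ext := lt_of_lt_of_le hre (re_le_norm _)
  have hin : ∀ ε : ℂ, ε.re = 0 → H (exp (ε * s)) ∈ (H '' Y242.CS.Ext)ᶜ := by
    rintro ε hε ⟨z, hz, hzH⟩
    have h3 : ‖exp (ε * s)‖ = 1 := by
      rw [norm_exp]
      simp [hε]
    have hz' : z ∈ ExtC := le_of_lt (show (1 : ℝ) < ‖z‖ from hz)
    have hz2 : exp (ε * s) ∈ ExtC := by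
      show (1 : ℝ) ≤ ‖exp (ε * s)‖
      rw [h3]
    have h4 : z = exp (ε * s) := hinj hz' hz2 hzH
    rw [h4] at hz
    have h5 : 1 < ‖exp (ε * s)‖ := hz
    rw [h3] at h5
    exact lt_irrefl _ h5
  have hmid := hconv (hin I I_re) (hin (-I) (by simp)) (show (0 : ℝ) ≤ 1 / 2 by norm_num)
    (show (0 : ℝ) ≤ 1 / 2 by norm_num) (by norm_num)
  apply hmid
  refine ⟨g (m s), hExt, ?_⟩
  rw [hs2, hm]
  simp only [real_smul]
  push_cast
  ring

end Y125.CS
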